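import Mathlib

open Finset

namespace Pool.Agent.Results.MP_ee0f4e_nt.Four

/-- The sum `A_n^(r)`. -/
def A (r n : ℕ) : ℕ := ∑ k ∈ range (n + 1), n.choose k ^ r * (n + k).choose k ^ r

def b (i n : ℕ) : ℕ :=
  if i = 0 then [123, 0, 2172, 2078, 0, 1, 0, 0, 0].getD n 0
  else [1721, 1782, 259, 1665, 0, 279, 1178, 1863, 1].getD n 0

def F (i r : ℕ) : ℕ := ∑ n ∈ range 9, b i n * A r n

lemma per (x r : ℕ) (h : 7 ≤ r) : ((x : ZMod 2187)) ^ (r + 1458) = x ^ r := by
  by_cases h3 : 3 ∣ x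
  · obtain ⟨y, rfl⟩ := h3
    obtain ⟨s, rfl⟩ := Nat.exists_eq_add_of_le h
    have : (3 : ZMod 2187) ^ 7 = 0 := by decide +kernel
    simp [mul_pow, pow_add, this]
  · have h1 : Nat.Coprime x (3 ^ 7) :=
      Nat.Coprime.pow_right _ ((Nat.Prime.coprime_iff_not_dvd Nat.prime_three).2 h3).symm
    have h2 := (ZMod.natCast_eq_natCast_iff _ _ _).2 (Nat.ModEq.pow_totient h1)
    rw [Nat.totient_prime_pow Nat.prime_three (by norm_num)] at h2
    norm_num at h2
    rw [pow_add, h2, mul_one]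

lemma fin : ∀ r < 1465, 4 < r → F 0 r % 2187 ≠ 0 ∨ F 1 r % 2187 ≠ 0 := by decide +kernel

lemma all (r : ℕ) (h : 4 < r) : (F 0 r : ZMod 2187) ≠ 0 ∨ (F 1 r : ZMod 2187) ≠ 0 := by
  induction r using Nat.strong_induction_on with
  | _ r ih =>
    rcases lt_or_ge r 1465 with h1 | h1
    · simpa only [Ne, ZMod.natCast_eq_zero_iff, Nat.dvd_iff_mod_eq_zero] using fin r h1 h
    · obtain ⟨s, rfl⟩ : ∃ s, r = s + 1458 := ⟨r - 1458, by omega⟩
      have e (i) : (F i (s + 1458) : ZMod 2187) = F i s := by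
        simp only [F, A, Nat.cast_sum, Nat.cast_mul, Nat.cast_pow, per _ _ (by omega : 7 ≤ s)]
      rw [e, e]
      exact ih s (by omega) (by omega)

lemma ker (i : ℕ) (hi : i < 2) (k : ℕ) (hk : k < 9) :
    (∑ n ∈ Ico k 9, (b i n * (n.choose k ^ 4 * (n + k).choose k ^ 4) : ℕ) : ZMod 2187) = 0 := by
  revert i k
  decide +kernel

theorem result : ¬ ∀ s > 1, ∀ n : ℕ, ∃ r > s, ∃ c : ℕ → ℚ,
    (∀ m, (A r m : ℚ) = ∑ k ∈ range (m + 1), m.choose k ^ s * (m + k).choose k ^ s * c k) ∧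
    ∀ k ≤ n, ∃ z : ℤ, c k = z := fun h => by
  obtain ⟨r, hr, c, hc, hz⟩ := h 4 (by norm_num) 8
  choose! z hz using hz
  have h1 (m) (hm : m ∈ range 9) : (A r m : ZMod 2187) =
      ∑ k ∈ range (m + 1), (m.choose k ^ 4 * (m + k).choose k ^ 4 : ℕ) * (z k : ZMod 2187) := by
    have : (A r m : ℤ) = ∑ k ∈ range (m + 1), (m.choose k ^ 4 * (m + k).choose k ^ 4 : ℕ) * z k := by
      have := hc m
      rw [sum_congr rfl fun k hk => by
        rw [hz k (by have := mem_range.1 hk; have := mem_range.1 hm; omega)]] at this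
      exact_mod_cast this
    simpa using congrArg (Int.cast (R := ZMod 2187)) this
  have h2 (i) (hi : i < 2) : (F i r : ZMod 2187) = 0 := by
    rw [F, Nat.cast_sum, sum_congr rfl fun m hm => by rw [Nat.cast_mul, h1 m hm, mul_sum]]
    simp only [range_eq_Ico]
    rw [← sum_Ico_Ico_comm]
    refine sum_eq_zero fun k hk => ?_
    have := congrArg (· * (z k : ZMod 2187)) (ker i hi k (mem_Ico.1 hk).2)
    simpa [sum_mul, mul_assoc] using this
  rcases all r hr with h | h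
  exacts [h (h2 0 (by norm_num)), h (h2 1 (by norm_num))]

end Pool.Agent.Results.MP_ee0f4e_nt.Four
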